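import Pool.Agent.Helper58.LD.Def

/-! LD, part D3a: there are no nonzero Poisson ideals in the ideal of a point off the vertex. -/

set_option autoImplicit false
set_option linter.unusedSectionVars false

open Polynomial Finset DirectSum

namespace Pool.Agent.Helper12.LD

open Pool.Agent.Helper766_CF Pool.Agent.Helper766_CG Pool.Agent.Helper766_CH
open Pool.Agent.Helper58.CS Pool.Agent.Helper58.OP Pool.Agent.Helper58.SH Pool.Agent.Helper58.BG
open Pool.Agent.Helper58.LC Pool.Agent.Helper58.LD

variable {R : Type} [CommRing R] [IsDomain R] [Algebra ℂ R] {𝒜 : ℕ → Submodule ℂ R}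
  [GradedAlgebra 𝒜] {br : R →ₗ[ℂ] R →ₗ[ℂ] R}

lemma ker_deriv_sq {m : Ideal R} {E : R → R} (hadd : ∀ a b, E (a + b) = E a + E b)
    (hmul : ∀ a b, E (a * b) = a * E b + b * E a) (hm : ∀ a, E a ∈ m) {d : R}
    (h1 : ∀ r ∈ m, E r - d * r ∈ m ^ 2) (k : ℕ) :
    ∀ r ∈ m ^ k, E r - (k : R) * d * r ∈ m ^ (k + 1) := by
  induction k with
  | zero =>
    intro r _
    simpa using hm r
  | succ k ih =>
    intro r hr
    rw [pow_succ] at hr
    refine Submodule.mul_induction_on hr ?_ ?_
    · intro v hv u hu
      have e : E (v * u) - ((k + 1 : ℕ) : R) * d * (v * u) =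
          v * (E u - d * u) + u * (E v - (k : R) * d * v) := by
        rw [hmul]; push_cast; ring
      rw [e]
      refine Ideal.add_mem _ ?_ ?_
      · have := Ideal.mul_mem_mul hv (h1 u hu)
        rwa [← pow_add] at this
      · have := Ideal.mul_mem_mul hu (ih v hv)
        rwa [← pow_succ'] at this
    · intro a b ha hb
      have e : E (a + b) - ((k + 1 : ℕ) : R) * d * (a + b) =
          (E a - ((k + 1 : ℕ) : R) * d * a) + (E b - ((k + 1 : ℕ) : R) * d * b) := by
        rw [hadd]; ring
      rw [e]
      exact Ideal.add_mem _ ha hb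

/-- D3a. There are no nonzero Poisson ideals in the ideal of a point off the vertex. -/
theorem poisson_ideal (C : Core 𝒜 br) {z : R →ₐ[ℂ] ℂ} (hz : ¬ IsVertex 𝒜 z) (J : Ideal R)
    (hJ : ∀ a, ∀ r ∈ J, br a r ∈ J) (hJz : ∀ r ∈ J, z r = 0) : J = ⊥ := by
  classical
  obtain ⟨N, b, hb, hdet⟩ := exists_frame C hz
  set G : Matrix (Fin N) (Fin N) R := Matrix.of fun i j => br (b i) (b j) with hG
  set m : Ideal R := RingHom.ker z with hm
  have hmem : ∀ r, r ∈ m ↔ z r = 0 := fun r => RingHom.mem_ker
  set x : Fin N → R := fun i => b i - algebraMap ℂ R (z (b i)) with hx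
  have hxm : ∀ i, x i ∈ m := by
    intro i
    rw [hmem, hx]
    simp
  set c : Fin N → R := fun j => ∑ i, x i * G.adjugate i j with hc
  have hcm : ∀ j, c j ∈ m := fun j => Ideal.sum_mem _ fun i _ => Ideal.mul_mem_right _ _ (hxm i)
  set E : R → R := fun r => ∑ j, c j * br (b j) r with hE
  have hbr0 : ∀ a (t : ℂ), br a (algebraMap ℂ R t) = 0 := by
    intro a t
    have h1 : br a 1 = 0 := by
      have := C.poisson.leibniz a 1 1
      rw [one_mul, one_mul] at this
      exact left_eq_add.1 this
    rw [Algebra.algebraMap_eq_smul_one, map_smul, h1, smul_zero]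
  have hadd : ∀ a b, E (a + b) = E a + E b := by
    intro a b
    simp only [hE, map_add, mul_add, sum_add_distrib]
  have hsmul : ∀ (t : ℂ) a, E (t • a) = t • E a := by
    intro t a
    simp only [hE, map_smul, smul_sum, mul_smul_comm]
  have hmul : ∀ a b, E (a * b) = a * E b + b * E a := by
    intro a b
    simp only [hE, C.poisson.leibniz, mul_sum, ← sum_add_distrib]
    exact sum_congr rfl fun j _ => by ring
  have hEm : ∀ a, E a ∈ m := fun a => Ideal.sum_mem _ fun j _ => Ideal.mul_mem_right _ _ (hcm j)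
  have hEb : ∀ k, E (b k) = G.det * x k := by
    intro k
    have h1 : E (b k) = ∑ j, ∑ i, x i * (G.adjugate i j * G j k) := by
      simp only [hE, hc, sum_mul]
      exact sum_congr rfl fun j _ => sum_congr rfl fun i _ => by rw [mul_assoc]; rfl
    rw [h1, sum_comm]
    have h2 : ∀ i, ∑ j, x i * (G.adjugate i j * G j k) = x i * (if i = k then G.det else 0) := by
      intro i
      rw [← mul_sum]
      have h4 := congrFun (congrFun (Matrix.adjugate_mul G) i) k
      rw [Matrix.mul_apply, Matrix.smul_apply, Matrix.one_apply] at h4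
      rw [h4]
      split_ifs <;> simp
    rw [sum_congr rfl fun i _ => h2 i]
    simp [mul_comm]
  have hE0 : ∀ t : ℂ, E (algebraMap ℂ R t) = 0 := by
    intro t
    simp only [hE, hbr0, mul_zero, sum_const_zero]
  have hEx : ∀ k, E (x k) = G.det * x k := by
    intro k
    have h1 : b k = x k + algebraMap ℂ R (z (b k)) := by simp [hx]
    have h2 := hEb k
    conv at h2 => lhs; rw [h1]
    rwa [hadd, hE0, add_zero] at h2
  have hEsq : ∀ r ∈ m ^ 2, E r ∈ m ^ 2 := by
    intro r hr
    rw [pow_two] at hr ⊢
    refine Submodule.mul_induction_on hr ?_ ?_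
    · intro u hu v hv
      rw [hmul]
      exact Ideal.add_mem _ (Ideal.mul_mem_mul hu (hEm v)) (Ideal.mul_mem_mul hv (hEm u))
    · intro u v hu hv
      rw [hadd]
      exact Ideal.add_mem _ hu hv
  have h1 : ∀ r ∈ m, E r - G.det * r ∈ m ^ 2 := by
    intro r hr
    obtain ⟨t, l, hl⟩ := hb r
    set w := r - ∑ j, l j • b j - algebraMap ℂ R t with hw
    -- `r = ∑ l j • x j + const + w`
    have e1 : r = ∑ j, l j • x j + algebraMap ℂ R (t + ∑ j, l j * z (b j)) + w := by
      have e2 : ∑ j, l j • x j = ∑ j, l j • b j - algebraMap ℂ R (∑ j, l j * z (b j)) := by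
        rw [map_sum, ← sum_sub_distrib]
        refine sum_congr rfl fun j _ => ?_
        rw [hx, smul_sub, map_mul, Algebra.smul_def (l j) (algebraMap ℂ R (z (b j)))]
      rw [e2, hw, map_add]
      ring
    have hzw : z w = 0 := (hmem w).1 (Ideal.pow_le_self two_ne_zero hl)
    have hconst : t + ∑ j, l j * z (b j) = 0 := by
      have e3 := congrArg z e1
      rw [(hmem r).1 hr, map_add, map_add, hzw, map_sum] at e3
      have e4 : ∀ j, z (l j • x j) = 0 := fun j => by
        rw [map_smul, (hmem _).1 (hxm j), smul_zero]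
      rw [sum_congr rfl fun j _ => e4 j, sum_const_zero, zero_add, add_zero, AlgHom.commutes] at e3
      exact e3.symm
    rw [hconst, map_zero, add_zero] at e1
    have hEsum : E (∑ j, l j • x j) = ∑ j, l j • (G.det * x j) := by
      have e5 : ∀ s : Finset (Fin N), E (∑ j ∈ s, l j • x j) = ∑ j ∈ s, l j • (G.det * x j) := by
        intro s
        induction s using Finset.induction_on with
        | empty => simp [hE]
        | insert a s ha ih => rw [sum_insert ha, sum_insert ha, hadd, hsmul, hEx, ih]
      exact e5 _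
    have e6 : E r - G.det * r = E w - G.det * w := by
      conv_lhs => rw [e1]
      rw [hadd, hEsum, mul_add, mul_sum]
      have e7 : ∑ j, l j • (G.det * x j) = ∑ j, G.det * (l j • x j) :=
        sum_congr rfl fun j _ => by rw [mul_smul_comm]
      rw [e7]
      ring
    rw [e6]
    exact Ideal.sub_mem _ (hEsq w hl) (Ideal.mul_mem_left _ _ hl)
  have h2 := ker_deriv_sq hadd hmul hEm h1
  have hstep : ∀ k : ℕ, 0 < k → J ≤ m ^ k := by
    intro k hk
    induction k, hk using Nat.le_induction with
    | base =>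
      intro r hr
      rw [Nat.succ_eq_add_one, zero_add, pow_one, hmem]
      exact hJz r hr
    | succ k hk ih =>
      intro r hr
      have h3 : E r ∈ m ^ (k + 1) := by
        rw [pow_succ']
        refine Ideal.sum_mem _ fun j _ => ?_
        exact Ideal.mul_mem_mul (hcm j) (ih (hJ _ _ hr))
      have h4 := Ideal.sub_mem _ h3 (h2 k r (ih hr))
      rw [sub_sub_cancel] at h4
      -- invert `det`
      have hd : z G.det ≠ 0 := hdet
      set t : ℂ := ((k : ℂ) * z G.det)⁻¹ with ht
      have hk0 : (k : ℂ) ≠ 0 := by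
        have : 0 < k := hk
        exact_mod_cast this.ne'
      have h5 : (1 - t • ((k : R) * G.det)) ∈ m := by
        rw [hmem, map_sub, map_one, map_smul, map_mul, map_natCast, smul_eq_mul, ht,
          inv_mul_cancel₀ (mul_ne_zero hk0 hd), sub_self]
      have h6 : (1 - t • ((k : R) * G.det)) * r ∈ m ^ (k + 1) := by
        rw [pow_succ']
        exact Ideal.mul_mem_mul h5 (ih hr)
      have h7 : t • ((k : R) * G.det * r) ∈ m ^ (k + 1) := by
        rw [Algebra.smul_def]
        exact Ideal.mul_mem_left _ _ h4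
      have h8 := Ideal.add_mem _ h6 h7
      have h9 : (1 - t • ((k : R) * G.det)) * r + t • ((k : R) * G.det * r) = r := by
        rw [sub_mul, one_mul, smul_mul_assoc, sub_add_cancel]
      rwa [h9] at h8
  have : IsNoetherianRing R := by
    have := C.fg
    exact Algebra.FiniteType.isNoetherianRing ℂ R
  have hne : m ≠ ⊤ := RingHom.ker_ne_top _
  have hinf := Ideal.iInf_pow_eq_bot_of_isDomain m hne
  rw [eq_bot_iff, ← hinf]
  refine le_iInf fun k => ?_
  rcases Nat.eq_zero_or_pos k with h | h
  · subst h; simp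
  · exact hstep k h

end Pool.Agent.Helper12.LD
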